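import Pool.Agent.L5helper42.Sym.Support

/-!
# Symmetric families of shared formulas: supports, evaluation in a structure, persistence
-/

set_option autoImplicit false

open Equiv Finset FirstOrder

namespace Pool.Agent.L5helper87.SF

open Pool.Agent.L5helper42.Sym

/-- The label of a node: an atom, a negation, or a disjunction of a set of nodes. -/
inductive Gate (V N : Type) : Type
  | var (v : V) : Gate V N
  | neg (i : N) : Gate V N
  | or (I : Finset N) : Gate V N

/-- Formulas with negations and unbounded disjunctions which share subformulas. -/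
structure Dag (V N : Type) where
  label : N → Gate V N
  rank : N → ℕ
  neg_lt : ∀ {i j : N}, label i = Gate.neg j → rank j < rank i
  or_lt : ∀ {i j : N} {I : Finset N}, label i = Gate.or I → j ∈ I → rank j < rank i

/-- The propositional variable `R (a_1, ..., a_k)`. -/
structure Atom (L : Language) (A : Type) : Type where
  k : ℕ
  R : L.Relations k
  a : Fin k → A

variable {L : Language} {A N : Type}

def Atom.rename (π : Perm A) (v : Atom L A) : Atom L A := ⟨v.k, v.R, fun t => π (v.a t)⟩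

def Gate.rename (π : Perm A) (σ : Perm N) : Gate (Atom L A) N → Gate (Atom L A) N
  | .var v => .var (v.rename π)
  | .neg i => .neg (σ i)
  | .or I => .or (I.map σ.toEmbedding)

lemma map_one' (Γ : Finset N) : Γ.map (1 : Perm N).toEmbedding = Γ :=
  (Finset.map_refl (s := Γ))

lemma map_mul' (σ τ : Perm N) (Γ : Finset N) :
    Γ.map (σ * τ).toEmbedding = (Γ.map τ.toEmbedding).map σ.toEmbedding := by
  rw [Finset.map_map]; rfl

lemma map_inv' (σ : Perm N) (Γ : Finset N) :
    (Γ.map σ.toEmbedding).map (σ⁻¹).toEmbedding = Γ := by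
  rw [← map_mul', inv_mul_cancel, map_one']

lemma map_inv'' (σ : Perm N) (Γ : Finset N) :
    (Γ.map (σ⁻¹).toEmbedding).map σ.toEmbedding = Γ := by
  rw [← map_mul', mul_inv_cancel, map_one']

/-- `σ` is an automorphism over the renaming `π` which permutes the cedents in `S`. -/
structure IsAut (C : Dag (Atom L A) N) (S : Set (Finset N)) (π : Perm A) (σ : Perm N) : Prop where
  label : ∀ i, C.label (σ i) = (C.label i).rename π σ
  lines : ∀ Γ : Finset N, Γ.map σ.toEmbedding ∈ S ↔ Γ ∈ S

lemma rename_one (g : Gate (Atom L A) N) : g.rename 1 1 = g := by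
  cases g with
  | var v => rfl
  | neg i => rfl
  | or I =>
    simp only [Gate.rename, Gate.or.injEq]
    exact map_one' I

lemma rename_mul (π π' : Perm A) (σ σ' : Perm N) (g : Gate (Atom L A) N) :
    g.rename (π * π') (σ * σ') = (g.rename π' σ').rename π σ := by
  cases g with
  | var v => rfl
  | neg i => rfl
  | or I =>
    simp only [Gate.rename, Gate.or.injEq]
    exact map_mul' σ σ' I

variable {C : Dag (Atom L A) N} {S : Set (Finset N)}

lemma IsAut.one : IsAut C S 1 1 := by
  refine ⟨fun i => by rw [rename_one]; rfl, fun Γ => ?_⟩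
  rw [map_one']

lemma IsAut.mul {π π' : Perm A} {σ σ' : Perm N} (h : IsAut C S π σ) (h' : IsAut C S π' σ') :
    IsAut C S (π * π') (σ * σ') := by
  refine ⟨fun i => ?_, fun Γ => ?_⟩
  · rw [rename_mul, ← h'.label, ← h.label]; rfl
  · rw [map_mul', h.lines, h'.lines]

lemma IsAut.inv {π : Perm A} {σ : Perm N} (h : IsAut C S π σ) : IsAut C S π⁻¹ σ⁻¹ := by
  refine ⟨fun i => ?_, fun Γ => ?_⟩
  · have h1 := h.label (σ⁻¹ i)
    rw [show σ (σ⁻¹ i) = i from σ.apply_symm_apply i] at h1
    have h2 : C.label (σ⁻¹ i) = ((C.label (σ⁻¹ i)).rename π σ).rename π⁻¹ σ⁻¹ := by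
      rw [← rename_mul, inv_mul_cancel, inv_mul_cancel, rename_one]
    rw [h2, ← h1]
  · have h1 := h.lines (Γ.map (σ⁻¹).toEmbedding)
    rw [← h1, map_inv'']

variable [DecidableEq A] (D : Finset A)

/-- Renamings of the elements of `D`. -/
def emb : Perm D →* Perm A := Perm.ofSubtype

lemma emb_not_mem {π : Perm D} {a : A} (ha : a ∉ D) : emb D π a = a :=
  Perm.ofSubtype_apply_of_not_mem π ha

lemma emb_mem (π : Perm D) (a : D) : emb D π a = π a :=
  Perm.ofSubtype_apply_coe π a

/-- The proof is invariant under all the renamings of `D`. -/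
def Inv (C : Dag (Atom L A) N) (S : Set (Finset N)) : Prop :=
  ∀ π : Perm D, ∃ σ : Perm N, IsAut C S (emb D π) σ

/-- The renamings of `D` which can be lifted to automorphisms that fix `Γ`. -/
def P (C : Dag (Atom L A) N) (S : Set (Finset N)) (Γ : Finset N) : Subgroup (Perm D) where
  carrier := {π | ∃ σ : Perm N, IsAut C S (emb D π) σ ∧ Γ.map σ.toEmbedding = Γ}
  one_mem' := ⟨1, by rw [map_one]; exact IsAut.one, map_one' Γ⟩
  mul_mem' := by
    rintro π π' ⟨σ, h1, h2⟩ ⟨σ', h1', h2'⟩
    exact ⟨σ * σ', by rw [map_mul]; exact h1.mul h1', by rw [map_mul', h2', h2]⟩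
  inv_mem' := by
    rintro π ⟨σ, h1, h2⟩
    refine ⟨σ⁻¹, by rw [map_inv]; exact h1.inv, ?_⟩
    nth_rewrite 1 [← h2]
    exact map_inv' σ Γ

lemma mem_P {Γ : Finset N} {π : Perm D} :
    π ∈ P D C S Γ ↔ ∃ σ : Perm N, IsAut C S (emb D π) σ ∧ Γ.map σ.toEmbedding = Γ := Iff.rfl

lemma index_le (hinv : Inv D C S) (T : Finset (Finset N))
    (hT : ∀ Γ ∈ T, ∀ (π : Perm D) (σ : Perm N), IsAut C S (emb D π) σ →
      Γ.map σ.toEmbedding ∈ T) {Γ : Finset N} (hΓ : Γ ∈ T) : (P D C S Γ).index ≤ T.card := by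
  classical
  choose σ hσ using hinv
  have h1 : Function.Injective (fun q : Perm D ⧸ P D C S Γ =>
      (⟨Γ.map (σ q.out).toEmbedding, hT Γ hΓ _ _ (hσ _)⟩ : T)) := by
    intro q q' h
    simp only [Subtype.mk.injEq] at h
    rw [← Quotient.out_eq q, ← Quotient.out_eq q']
    refine Quotient.sound ?_
    change (QuotientGroup.leftRel _) _ _
    rw [QuotientGroup.leftRel_apply]
    refine ⟨(σ q.out)⁻¹ * σ q'.out, by
      rw [map_mul, map_inv]; exact (hσ _).inv.mul (hσ _), ?_⟩
    rw [map_mul', ← h, map_inv']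
  have h2 := Nat.card_le_card_of_injective _ h1
  rw [Subgroup.index]
  simpa using h2

/-- The support of a set of nodes. -/
noncomputable def sp (C : Dag (Atom L A) N) (S : Set (Finset N)) (Γ : Finset N) : Finset D :=
  supp (P D C S Γ)

lemma full_sp (Γ : Finset N) : Full (P D C S Γ) (sp D C S Γ)ᶜ := full_supp _

/-- Supports move with the nodes. -/
lemma sp_image {Γ : Finset N} {π : Perm D} {σ : Perm N} (h : IsAut C S (emb D π) σ)
    (hc : 2 * (sp D C S Γ).card + 2 ≤ D.card)
    (hc' : 2 * (sp D C S (Γ.map σ.toEmbedding)).card + 2 ≤ D.card) :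
    sp D C S (Γ.map σ.toEmbedding) = (sp D C S Γ).map π.toEmbedding := by
  have key : ∀ (Γ : Finset N) (π : Perm D) (σ : Perm N), IsAut C S (emb D π) σ →
      Full (P D C S (Γ.map σ.toEmbedding)) ((sp D C S Γ).map π.toEmbedding)ᶜ := by
    intro Γ π σ h a ha b hb c hc hab hac hbc
    simp only [mem_compl, mem_map_equiv] at ha hb hc
    have h1 := full_sp D (C := C) (S := S) Γ (π⁻¹ a) (mem_compl.2 ha) (π⁻¹ b) (mem_compl.2 hb)
      (π⁻¹ c) (mem_compl.2 hc) (fun h => hab (π⁻¹.injective h)) (fun h => hac (π⁻¹.injective h))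
      (fun h => hbc (π⁻¹.injective h))
    obtain ⟨τ, h2, h3⟩ := h1
    refine ⟨σ * τ * σ⁻¹, ?_, ?_⟩
    · have h4 := (h.mul h2).mul h.inv
      rw [← map_inv, ← map_mul, ← map_mul] at h4
      have h5 : swap a b * swap a c = π * (swap (π⁻¹ a) (π⁻¹ b) * swap (π⁻¹ a) (π⁻¹ c)) * π⁻¹ := by
        have e1 : ∀ x y : D, swap x y = π * swap (π⁻¹ x) (π⁻¹ y) * π⁻¹ := by
          intro x y
          rw [Perm.mul_def, Perm.mul_def]
          ext z
          simp [swap_apply_def]
          split_ifs with h6 h7 h8 h9 <;> simp_all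
        rw [e1 a b, e1 a c]
        group
      rw [h5]
      exact h4
    · rw [map_mul', map_inv', map_mul', h3]
  have hcard : Fintype.card D = D.card := Fintype.card_coe D
  have h1 : sp D C S (Γ.map σ.toEmbedding) ⊆ (sp D C S Γ).map π.toEmbedding := by
    refine supp_subset (key Γ π σ h) ?_
    rw [card_map, hcard]
    unfold sp at hc hc' ⊢
    omega
  refine Finset.eq_of_subset_of_card_le h1 ?_
  rw [card_map]
  have h2 := key (Γ.map σ.toEmbedding) π⁻¹ σ⁻¹ (by rw [map_inv]; exact h.inv)
  rw [map_inv'] at h2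
  have h4 := supp_card_le_of_full h2
  rw [card_map] at h4
  exact h4

end Pool.Agent.L5helper87.SF
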