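import Pool.Agent.L5helper87.SF.Val

/-!
# Frege refutations of translations of first-order sentences; soundness for symmetric proofs
-/

set_option autoImplicit false

open Equiv Finset FirstOrder

namespace Pool.Agent.L5helper87.SF

open Pool.Agent.L5helper42.Sym

variable {L : Language} {A N : Type}

/-- One inference: `Γ` follows from the cedents for which `prev` holds. The nodes in `H` are the
hypotheses. -/
inductive Step [DecidableEq N] {V : Type} (C : Dag V N) (H : N → Prop) (prev : Finset N → Prop) :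
    Finset N → Prop
  | hyp {i : N} {Γ : Finset N} : H i → i ∈ Γ → Step C H prev Γ
  | excludedMiddle {i j : N} {Γ : Finset N} : C.label j = .neg i → i ∈ Γ → j ∈ Γ → Step C H prev Γ
  | weakening {Γ Δ : Finset N} : prev Δ → Δ ⊆ Γ → Step C H prev Γ
  | orIntro {o j : N} {I Γ Δ : Finset N} : C.label o = .or I → j ∈ I → o ∈ Γ → prev Δ →
      Δ ⊆ insert j Γ → Step C H prev Γ
  | negOrIntro {m o : N} {I Γ : Finset N} : C.label m = .neg o → C.label o = .or I → m ∈ Γ →
      (∀ j ∈ I, ∃ (j' : N) (Δ : Finset N), C.label j' = .neg j ∧ prev Δ ∧ Δ ⊆ insert j' Γ) →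
      Step C H prev Γ
  | negNegIntro {m j i : N} {Γ Δ : Finset N} : C.label m = .neg j → C.label j = .neg i → m ∈ Γ →
      prev Δ → Δ ⊆ insert i Γ → Step C H prev Γ
  | cut {i j : N} {Γ Δ Δ' : Finset N} : C.label j = .neg i → prev Δ → Δ ⊆ insert i Γ → prev Δ' →
      Δ' ⊆ insert j Γ → Step C H prev Γ
  | copy {i j : N} {Γ Δ : Finset N} : C.label i = C.label j → i ∈ Γ → prev Δ → Δ ⊆ insert j Γ →
      Step C H prev Γ

/-- `l` is a derivation (the last inference first). -/
inductive Derivation [DecidableEq N] {V : Type} (C : Dag V N) (H : N → Prop) :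
    List (Finset N) → Prop
  | nil : Derivation C H []
  | cons {Γ : Finset N} {l : List (Finset N)} : Derivation C H l → Step C H (· ∈ l) Γ →
      Derivation C H (Γ :: l)

/-- The element denoted by a term of a relational language. -/
def termEval [L.IsRelational] {n : ℕ} (a : Fin n → A) : L.Term (Empty ⊕ Fin n) → A
  | .var (Sum.inl e) => e.elim
  | .var (Sum.inr t) => a t
  | .func f _ => isEmptyElim f

/-- The node `i` represents the propositional translation of the formula `φ` with the elements
`a` of `A` for its variables. -/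
def Represents [L.IsRelational] (C : Dag (Atom L A) N) :
    {n : ℕ} → L.BoundedFormula Empty n → (Fin n → A) → N → Prop
  | _, .falsum, _, i => C.label i = .or ∅
  | _, .equal t₁ t₂, a, i =>
      (termEval a t₁ = termEval a t₂ ∧ ∃ j, C.label i = .neg j ∧ C.label j = .or ∅) ∨
      (termEval a t₁ ≠ termEval a t₂ ∧ C.label i = .or ∅)
  | _, .rel R ts, a, i => C.label i = .var ⟨_, R, fun t => termEval a (ts t)⟩
  | _, .imp φ ψ, a, i => ∃ (x y : N) (I : Finset N), C.label i = .or I ∧ (∀ z, z ∈ I ↔ z = x ∨ z = y) ∧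
      (∃ j, C.label x = .neg j ∧ Represents C φ a j) ∧ Represents C ψ a y
  | _, .all φ, a, i => ∃ (o : N) (I : Finset N), C.label i = .neg o ∧ C.label o = .or I ∧
      (∀ x ∈ I, ∃ (b : A) (y : N), C.label x = .neg y ∧ Represents C φ (Fin.snoc a b) y) ∧
      (∀ b : A, ∃ x ∈ I, ∃ y : N, C.label x = .neg y ∧ Represents C φ (Fin.snoc a b) y)

/-- The largest number of variables in scope (for a sentence: the quantifier depth). -/
def width : {n : ℕ} → L.BoundedFormula Empty n → ℕ
  | n, .falsum => n
  | n, .equal _ _ => n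
  | n, .rel _ _ => n
  | _, .imp φ ψ => max (width φ) (width ψ)
  | _, .all φ => width φ

lemma le_width : ∀ {n : ℕ} (φ : L.BoundedFormula Empty n), n ≤ width φ := by
  intro n φ
  induction φ with
  | falsum => exact le_rfl
  | equal _ _ => exact le_rfl
  | rel _ _ => exact le_rfl
  | imp φ ψ ih1 ih2 => exact ih1.trans (le_max_left _ _)
  | all φ ih => exact (Nat.le_succ _).trans ih

variable [DecidableEq A] {M : Type} [L.Structure M] {C : Dag (Atom L A) N} {S : Set (Finset N)}
  {D : Finset A}

omit [DecidableEq A] in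
lemma realize_term [L.IsRelational] {n : ℕ} (a : Fin n → A) (h : A ↪ M)
    (t : L.Term (Empty ⊕ Fin n)) (v : Empty → M) :
    t.realize (Sum.elim v fun s => h (a s)) = h (termEval a t) := by
  cases t with
  | var x =>
    cases x with
    | inl e => exact e.elim
    | inr s => rfl
  | func f _ => exact isEmptyElim f

omit [DecidableEq A] [L.Structure M] in
lemma snoc_comp {n : ℕ} (a : Fin n → A) (b : A) (h : A ↪ M) :
    (fun s => h (Fin.snoc (α := fun _ => A) a b s)) =
      Fin.snoc (α := fun _ => M) (fun s => h (a s)) (h b) := by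
  funext s
  refine Fin.lastCases ?_ (fun t => ?_) s
  · simp
  · simp

/-- A node which represents a first-order formula has the value of the formula in `M`. -/
lemma represents [L.IsRelational] [Fintype A] {k q : ℕ} (hS : Small D C S k)
    (hk : q + 5 * k + 3 ≤ D.card) (v : Empty → M) :
    ∀ {n : ℕ} (φ : L.BoundedFormula Empty n), width φ ≤ q → ∀ (a : Fin n → A) (i : N),
      Represents C φ a i → ∀ h : A ↪ M,
        (val D C S i h ↔ φ.Realize v (fun s => h (a s))) := by
  classical
  intro n φ
  induction φ with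
  | falsum =>
    intro _ a i hi h
    rw [val_or D (show C.label i = .or ∅ from hi)]
    constructor
    · rintro ⟨j, hj, _⟩
      exact absurd hj (notMem_empty j)
    · intro h1
      exact h1.elim
  | equal t₁ t₂ =>
    intro _ a i hi h
    change _ ↔ t₁.realize _ = t₂.realize _
    rw [realize_term, realize_term, h.injective.eq_iff]
    rcases hi with ⟨h1, j, h2, h3⟩ | ⟨h1, h2⟩
    · rw [val_neg D h2, val_or D h3]
      refine ⟨fun _ => h1, fun _ => ?_⟩
      rintro ⟨j, hj, _⟩
      exact absurd hj (notMem_empty j)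
    · rw [val_or D h2]
      refine ⟨?_, fun h3 => absurd h3 h1⟩
      rintro ⟨j, hj, _⟩
      exact absurd hj (notMem_empty j)
  | rel R ts =>
    intro _ a i hi h
    rw [val_var D (show C.label i = .var _ from hi)]
    change _ ↔ Language.Structure.RelMap R _
    have : (fun t => h (termEval a (ts t))) = fun t => (ts t).realize
        (Sum.elim v fun s => h (a s)) := by
      funext t
      rw [realize_term]
    rw [this]
  | imp φ ψ ih1 ih2 =>
    intro hq a i hi h
    obtain ⟨x, y, I, h1, h2, ⟨j, h3, h4⟩, h5⟩ := hi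
    have hq1 : width φ ≤ q := (le_max_left _ _).trans hq
    have hq2 : width ψ ≤ q := (le_max_right _ _).trans hq
    change _ ↔ (φ.Realize _ _ → ψ.Realize _ _)
    rw [← ih1 hq1 a j h4 h, ← ih2 hq2 a y h5 h]
    constructor
    · intro hv
      obtain ⟨z, hz, h', h6, h7⟩ := persist_node (B := sp D C S {j} ∪ sp D C S {y}) hS h1 (by
        have := card_union_le (sp D C S {j}) (sp D C S {y})
        have := hS.node j
        have := hS.node y
        omega) hv
      rcases (h2 z).1 hz with rfl | rfl
      · rw [val_neg D h3] at h7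
        intro h8
        exact absurd ((val_local hS (by omega) j h h' (h6.mono subset_union_left)).1 h8) h7
      · intro _
        exact (val_local hS (by omega) _ h h' (h6.mono subset_union_right)).2 h7
    · intro h6
      rw [val_or D h1]
      by_cases h7 : val D C S j h
      · exact ⟨y, (h2 y).2 (Or.inr rfl), h, Agree.refl _ _ _, h6 h7⟩
      · exact ⟨x, (h2 x).2 (Or.inl rfl), h, Agree.refl _ _ _, (val_neg D h3 h).2 h7⟩
  | @all n φ ih =>
    intro hq a i hi h
    obtain ⟨o, I, h1, h2, h3, h4⟩ := hi
    have hq1 : width φ ≤ q := hq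
    have hn : n + 1 ≤ q := (le_width φ).trans hq1
    set B : Finset D := univ.filter fun b : D => ∃ s, a s = b with hB
    have hBc : B.card ≤ n := by
      have h5 : B.map (Function.Embedding.subtype _) ⊆ univ.image a := by
        intro x hx
        rw [Finset.mem_map] at hx
        obtain ⟨b, hb, rfl⟩ := hx
        obtain ⟨s, hs⟩ := (mem_filter.1 hb).2
        exact mem_image.2 ⟨s, mem_univ _, hs⟩
      have h6 := card_le_card h5
      rw [card_map] at h6
      refine h6.trans (card_image_le.trans ?_)
      simp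
    have hagr : ∀ h h' : A ↪ M, Agree D h h' B → (fun s => h (a s)) = fun s => h' (a s) := by
      intro h h' hag
      funext s
      by_cases hD : a s ∈ D
      · exact hag.2 ⟨a s, hD⟩ (mem_filter.2 ⟨mem_univ _, s, rfl⟩)
      · exact hag.1 _ hD
    rw [val_neg D h1]
    change _ ↔ ∀ u : M, φ.Realize v (Fin.snoc (fun s => h (a s)) u)
    constructor
    · intro hv u
      by_contra hcon
      obtain ⟨h5, h6, h7⟩ := exists_cover h
        (Dᶜ ∪ (sp D C S {o} ∪ B).map (Function.Embedding.subtype _)) {u} (by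
          have h8 := card_union_le Dᶜ ((sp D C S {o} ∪ B).map (Function.Embedding.subtype (· ∈ D)))
          rw [card_map, card_compl] at h8
          have h9 := card_union_le (sp D C S {o}) B
          have h10 := hS.node o
          have h11 := card_le_univ D
          rw [card_singleton]
          omega)
      obtain ⟨b, hb⟩ := h7 u (mem_singleton_self u)
      have hag : Agree D h h5 (sp D C S {o} ∪ B) :=
        ⟨fun x hx => (h6 x (mem_union_left _ (mem_compl.2 hx))).symm,
          fun x hx => (h6 x (mem_union_right _ (mem_map_of_mem _ hx))).symm⟩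
      obtain ⟨x, hx, y, h8, h9⟩ := h4 b
      apply hv
      rw [val_or D h2]
      refine ⟨x, hx, h5, hag.mono subset_union_left, ?_⟩
      rw [val_neg D h8, ih hq1 _ y h9 h5, snoc_comp, hb]
      rw [hagr h h5 (hag.mono subset_union_right)] at hcon
      exact hcon
    · intro hall hv
      obtain ⟨x, hx, h', h6, h7⟩ := persist_node (B := B) hS h2 (by omega) hv
      obtain ⟨b, y, h8, h9⟩ := h3 x hx
      rw [val_neg D h8, ih hq1 _ y h9 h', snoc_comp] at h7
      rw [hagr h h' h6] at hall
      exact h7 (hall (h' b))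

/-- **Soundness** of the inferences for symmetric proofs. -/
lemma step_sound [DecidableEq N] [Fintype A] {k : ℕ} (hS : Small D C S k)
    (hk : 6 * k + 3 ≤ D.card) {H : N → Prop} (hH : ∀ i, H i → ∀ h : A ↪ M, val D C S i h)
    {prev : Finset N → Prop} (hprev : ∀ Δ, prev Δ → Δ ∈ S ∧ TrueLine M D C S Δ)
    {Γ : Finset N} (hΓ : Γ ∈ S) (hstep : Step C H prev Γ) : TrueLine M D C S Γ := by
  intro h
  have hΓk := hS.line Γ hΓ
  have at' : ∀ (Δ : Finset N), prev Δ → ∀ (B : Finset D) (h : A ↪ M), B.card ≤ 3 * k →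
      ∃ i ∈ Δ, ∃ h' : A ↪ M, Agree D h h' B ∧ val D C S i h' := fun Δ hΔ B h hB =>
    TrueLine.at hS (hS.line Δ (hprev Δ hΔ).1) (by omega) (hprev Δ hΔ).2 h
  cases hstep with
  | hyp h1 h2 => exact ⟨_, h2, h, Agree.refl _ _ _, hH _ h1 h⟩
  | @excludedMiddle i j _ h1 h2 h3 =>
    by_cases hv : val D C S i h
    · exact ⟨i, h2, h, Agree.refl _ _ _, hv⟩
    · exact ⟨j, h3, h, Agree.refl _ _ _, (val_neg D h1 h).2 hv⟩
  | @weakening _ Δ h1 h2 =>
    obtain ⟨i, hi, h', h3, h4⟩ := at' Δ h1 (sp D C S Γ) h (by omega)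
    exact ⟨i, h2 hi, h', h3, h4⟩
  | @orIntro o j I _ Δ h1 h2 h3 h4 h5 =>
    obtain ⟨i, hi, h', h6, h7⟩ := at' Δ h4 (sp D C S Γ) h (by omega)
    rcases mem_insert.1 (h5 hi) with rfl | h8
    · exact ⟨o, h3, h', h6, (val_or D h1 h').2 ⟨i, h2, h', Agree.refl _ _ _, h7⟩⟩
    · exact ⟨i, h8, h', h6, h7⟩
  | @negOrIntro m o I _ h1 h2 h3 h4 =>
    by_cases hv : val D C S m h
    · exact ⟨m, h3, h, Agree.refl _ _ _, hv⟩
    · rw [val_neg D h1, not_not] at hv
      obtain ⟨j, hj, h', h5, h6⟩ := persist_node (B := sp D C S Γ) hS h2 (by omega) hv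
      obtain ⟨j', Δ, h7, h8, h9⟩ := h4 j hj
      have hcard : (sp D C S Γ ∪ sp D C S {j}).card ≤ 3 * k := by
        have := card_union_le (sp D C S Γ) (sp D C S {j})
        have := hS.node j
        omega
      obtain ⟨i, hi, h'', h10, h11⟩ := at' Δ h8 (sp D C S Γ ∪ sp D C S {j}) h' hcard
      rcases mem_insert.1 (h9 hi) with rfl | h12
      · rw [val_neg D h7] at h11
        exact absurd ((val_local hS (by omega) j h' h'' (h10.mono subset_union_right)).1 h6) h11
      · exact ⟨i, h12, h'', h5.trans (h10.mono subset_union_left), h11⟩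
  | @negNegIntro m j i _ Δ h1 h2 h3 h4 h5 =>
    obtain ⟨x, hx, h', h6, h7⟩ := at' Δ h4 (sp D C S Γ) h (by omega)
    rcases mem_insert.1 (h5 hx) with rfl | h8
    · refine ⟨m, h3, h', h6, ?_⟩
      rw [val_neg D h1, val_neg D h2, not_not]
      exact h7
    · exact ⟨x, h8, h', h6, h7⟩
  | @cut i j _ Δ Δ' h1 h2 h3 h4 h5 =>
    have hcard : (sp D C S Γ ∪ sp D C S {i}).card ≤ 3 * k := by
      have := card_union_le (sp D C S Γ) (sp D C S {i})
      have := hS.node i
      omega
    obtain ⟨x, hx, h', h6, h7⟩ := at' Δ h2 (sp D C S Γ ∪ sp D C S {i}) h hcard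
    rcases mem_insert.1 (h3 hx) with rfl | h8
    · obtain ⟨y, hy, h'', h9, h10⟩ := at' Δ' h4 (sp D C S Γ ∪ sp D C S {x}) h' hcard
      rcases mem_insert.1 (h5 hy) with rfl | h11
      · rw [val_neg D h1] at h10
        exact absurd ((val_local hS (by omega) x h' h'' (h9.mono subset_union_right)).1 h7) h10
      · exact ⟨y, h11, h'', (h6.mono subset_union_left).trans (h9.mono subset_union_left), h10⟩
    · exact ⟨x, h8, h', h6.mono subset_union_left, h7⟩
  | @copy i j _ Δ h1 h2 h3 h4 =>
    have hcard : (sp D C S Γ ∪ sp D C S {i}).card ≤ 3 * k := by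
      have := card_union_le (sp D C S Γ) (sp D C S {i})
      have := hS.node i
      omega
    obtain ⟨x, hx, h', h6, h7⟩ := at' Δ h3 (sp D C S Γ ∪ sp D C S {i}) h hcard
    rcases mem_insert.1 (h4 hx) with rfl | h8
    · cases hl : C.label i with
      | var v =>
        refine ⟨i, h2, h', h6.mono subset_union_left, ?_⟩
        rw [val_var D hl]
        rw [val_var D (h1.symm.trans hl)] at h7
        exact h7
      | neg y =>
        refine ⟨i, h2, h', h6.mono subset_union_left, ?_⟩
        rw [val_neg D hl]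
        rw [val_neg D (h1.symm.trans hl)] at h7
        exact h7
      | or I =>
        obtain ⟨z, hz, h'', h9, h10⟩ := persist_node (B := sp D C S Γ ∪ sp D C S {i}) hS
          (h1.symm.trans hl) (by omega) h7
        refine ⟨i, h2, h', h6.mono subset_union_left, ?_⟩
        rw [val_or D hl]
        exact ⟨z, hz, h'', h9.mono subset_union_right, h10⟩
    · exact ⟨x, h8, h', h6.mono subset_union_left, h7⟩

end Pool.Agent.L5helper87.SF
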