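import Pool.Agent.L5helper87.SF.Basic

/-!
# Evaluation of symmetric shared formulas in a structure
-/

set_option autoImplicit false

open Equiv Finset FirstOrder

namespace Pool.Agent.L5helper87.SF

open Pool.Agent.L5helper42.Sym

variable {L : Language} {A N : Type} [DecidableEq A] {M : Type} [L.Structure M]
  {C : Dag (Atom L A) N} {S : Set (Finset N)}

/-- Two labellings of `A` by elements of `M` which agree outside `D` and on `B ⊆ D`. -/
def Agree (D : Finset A) (h h' : A ↪ M) (B : Finset D) : Prop :=
  (∀ a, a ∉ D → h a = h' a) ∧ ∀ b ∈ B, h b = h' b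

omit [DecidableEq A] [L.Structure M] in
lemma Agree.refl (D : Finset A) (h : A ↪ M) (B : Finset D) : Agree D h h B :=
  ⟨fun _ _ => rfl, fun _ _ => rfl⟩

omit [DecidableEq A] [L.Structure M] in
lemma Agree.symm {D : Finset A} {h h' : A ↪ M} {B : Finset D} (H : Agree D h h' B) :
    Agree D h' h B :=
  ⟨fun a ha => (H.1 a ha).symm, fun b hb => (H.2 b hb).symm⟩

omit [DecidableEq A] [L.Structure M] in
lemma Agree.trans {D : Finset A} {h h' h'' : A ↪ M} {B : Finset D} (H : Agree D h h' B)
    (H' : Agree D h' h'' B) : Agree D h h'' B :=
  ⟨fun a ha => (H.1 a ha).trans (H'.1 a ha), fun b hb => (H.2 b hb).trans (H'.2 b hb)⟩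

omit [DecidableEq A] [L.Structure M] in
lemma Agree.mono {D : Finset A} {h h' : A ↪ M} {B B' : Finset D} (H : Agree D h h' B)
    (hB : B' ⊆ B) : Agree D h h' B' :=
  ⟨H.1, fun b hb => H.2 b (hB hb)⟩

/-- The value of a node. -/
noncomputable def val (D : Finset A) (C : Dag (Atom L A) N) (S : Set (Finset N)) :
    N → (A ↪ M) → Prop :=
  (measure C.rank).wf.fix (fun i rec h =>
    match hl : C.label i with
    | .var v => Language.Structure.RelMap v.R (fun t => h (v.a t))
    | .neg j => ¬ rec j (C.neg_lt hl) h
    | .or I => ∃ j, ∃ hj : j ∈ I, ∃ h' : A ↪ M, Agree D h h' (sp D C S {i}) ∧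
        rec j (C.or_lt hl hj) h')

variable (D : Finset A)

lemma val_var {i : N} {v : Atom L A} (hl : C.label i = .var v) (h : A ↪ M) :
    val D C S i h ↔ Language.Structure.RelMap v.R (fun t => h (v.a t)) := by
  unfold val
  rw [WellFounded.fix_eq]
  split
  · rename_i w hw
    rw [hl] at hw
    cases hw
    rfl
  · rename_i w hw
    rw [hl] at hw
    cases hw
  · rename_i w hw
    rw [hl] at hw
    cases hw

lemma val_neg {i j : N} (hl : C.label i = .neg j) (h : A ↪ M) :
    val D C S i h ↔ ¬ val D C S j h := by
  unfold val
  rw [WellFounded.fix_eq]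
  split
  · rename_i w hw
    rw [hl] at hw
    cases hw
  · rename_i w hw
    rw [hl] at hw
    cases hw
    rfl
  · rename_i w hw
    rw [hl] at hw
    cases hw

lemma val_or {i : N} {I : Finset N} (hl : C.label i = .or I) (h : A ↪ M) :
    val D C S i h ↔ ∃ j ∈ I, ∃ h' : A ↪ M, Agree D h h' (sp D C S {i}) ∧ val D C S j h' := by
  unfold val
  rw [WellFounded.fix_eq]
  split
  · rename_i w hw
    rw [hl] at hw
    cases hw
  · rename_i w hw
    rw [hl] at hw
    cases hw
  · rename_i w hw
    rw [hl] at hw
    cases hw
    simp only [exists_prop]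

/-- The supports are small and the proof is invariant. -/
structure Small (D : Finset A) (C : Dag (Atom L A) N) (S : Set (Finset N)) (k : ℕ) : Prop where
  inv : Inv D C S
  node : ∀ i, (sp D C S {i}).card ≤ k
  line : ∀ Γ ∈ S, (sp D C S Γ).card ≤ k

variable {D}

/-- Symmetry of the values. -/
lemma val_sym {k : ℕ} (hS : Small D C S k) (hk : 2 * k + 3 ≤ D.card) {π : Perm D}
    {σ : Perm N} (hσ : IsAut C S (emb D π) σ) (i : N) :
    ∀ h : A ↪ M, val D C S (σ i) h ↔ val D C S i ((emb D π).toEmbedding.trans h) := by
  have key : ∀ (r : ℕ) (i : N), C.rank i < r → ∀ h : A ↪ M,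
      val D C S (σ i) h ↔ val D C S i ((emb D π).toEmbedding.trans h) := by
    intro r
    induction r with
    | zero => intro i hi; omega
    | succ r ih =>
      intro i hi h
      have hlab := hσ.label i
      cases hl : C.label i with
      | var v =>
        rw [hl] at hlab
        rw [val_var D hl, val_var D (show C.label (σ i) = .var (v.rename (emb D π)) from hlab)]
        rfl
      | neg j =>
        rw [hl] at hlab
        rw [val_neg D hl, val_neg D (show C.label (σ i) = .neg (σ j) from hlab),
          ih j (by have := C.neg_lt hl; omega)]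
      | or I =>
        rw [hl] at hlab
        have hsp : sp D C S {σ i} = (sp D C S {i}).map π.toEmbedding := by
          have h1 := sp_image D (Γ := {i}) hσ (by have := hS.node i; omega) (by
            rw [map_singleton]
            have := hS.node (σ i)
            simp only [Equiv.coe_toEmbedding]
            omega)
          rwa [map_singleton] at h1
        rw [val_or D hl, val_or D (show C.label (σ i) = .or (I.map σ.toEmbedding) from hlab)]
        constructor
        · rintro ⟨j', hj', h', hag, hv⟩
          rw [Finset.mem_map] at hj'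
          obtain ⟨j, hj, rfl⟩ := hj'
          refine ⟨j, hj, (emb D π).toEmbedding.trans h', ⟨fun a ha => ?_, fun b hb => ?_⟩,
            (ih j (by have := C.or_lt hl hj; omega) h').1 hv⟩
          · simp only [Function.Embedding.trans_apply, Equiv.coe_toEmbedding]
            rw [emb_not_mem D ha]
            exact hag.1 a ha
          · simp only [Function.Embedding.trans_apply, Equiv.coe_toEmbedding]
            rw [emb_mem]
            refine hag.2 (π b) ?_
            rw [hsp]
            exact mem_map_of_mem _ hb
        · rintro ⟨j, hj, g, hag, hv⟩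
          have hg : (emb D π).toEmbedding.trans ((emb D π)⁻¹.toEmbedding.trans g) = g := by
            ext a
            simp only [Function.Embedding.trans_apply, Equiv.coe_toEmbedding]
            rw [show (emb D π)⁻¹ ((emb D π) a) = a from (emb D π).symm_apply_apply a]
          refine ⟨σ j, mem_map_of_mem _ hj, (emb D π)⁻¹.toEmbedding.trans g,
            ⟨fun a ha => ?_, fun b hb => ?_⟩,
            (ih j (by have := C.or_lt hl hj; omega) _).2 (by rwa [hg])⟩
          · have h1 := hag.1 a ha
            simp only [Function.Embedding.trans_apply, Equiv.coe_toEmbedding] at h1 ⊢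
            rw [emb_not_mem D ha] at h1
            rw [← map_inv, emb_not_mem D ha]
            exact h1
          · rw [hsp, Finset.mem_map] at hb
            obtain ⟨b, hb, rfl⟩ := hb
            have h1 := hag.2 b hb
            simp only [Function.Embedding.trans_apply, Equiv.coe_toEmbedding] at h1 ⊢
            rw [emb_mem] at h1
            rw [← map_inv, emb_mem, show π⁻¹ (π b) = b from π.symm_apply_apply b]
            exact h1
  exact key (C.rank i + 1) i (Nat.lt_succ_self _)

/-- The value of a node depends only on its support. -/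
lemma val_local {k : ℕ} (hS : Small D C S k) (hk : 2 * k + 3 ≤ D.card) (i : N) :
    ∀ h h' : A ↪ M, Agree D h h' (sp D C S {i}) → (val D C S i h ↔ val D C S i h') := by
  have key : ∀ (r : ℕ) (i : N), C.rank i < r → ∀ h h' : A ↪ M, Agree D h h' (sp D C S {i}) →
      (val D C S i h ↔ val D C S i h') := by
    intro r
    induction r with
    | zero => intro i hi; omega
    | succ r ih =>
      intro i hi h h' hag
      cases hl : C.label i with
      | var v =>
        rw [val_var D hl, val_var D hl]
        have : (fun t => h (v.a t)) = fun t => h' (v.a t) := by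
          funext t
          by_cases hD : v.a t ∈ D
          · have hmem : (⟨v.a t, hD⟩ : D) ∈ sp D C S {i} := by
              by_contra hx
              set x : D := ⟨v.a t, hD⟩ with hxd
              have hcard : 2 ≤ ((sp D C S {i} ∪ {x})ᶜ).card := by
                rw [card_compl, Fintype.card_coe]
                have h1 := card_union_le (sp D C S {i}) {x}
                have h2 := hS.node i
                rw [card_singleton] at h1
                omega
              obtain ⟨y, hy, z, hz, hyz⟩ := Finset.one_lt_card.1 hcard
              simp only [mem_compl, mem_union, mem_singleton, not_or] at hy hz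
              obtain ⟨τ, h3, h4⟩ := full_sp D (C := C) (S := S) {i} x (mem_compl.2 hx) y
                (mem_compl.2 hy.1) z (mem_compl.2 hz.1) (Ne.symm hy.2) (Ne.symm hz.2) hyz
              rw [map_singleton] at h4
              have h5 : τ i = i := by simpa using h4
              have h6 := h3.label i
              rw [h5, hl] at h6
              simp only [Gate.rename, Gate.var.injEq] at h6
              have h7 : v.a t = (v.rename (emb D (swap x y * swap x z))).a t := by
                have : ∀ w : Atom L A, v = w → ∀ (h : v.k = w.k), v.a t = w.a (Fin.cast h t) := by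
                  rintro w rfl h
                  rfl
                exact this _ h6 rfl
              change (x : A) = emb D (swap x y * swap x z) x at h7
              rw [emb_mem] at h7
              have h8 := Subtype.ext h7
              rw [Perm.mul_apply, swap_apply_left,
                swap_apply_of_ne_of_ne hz.2 (Ne.symm hyz)] at h8
              exact hz.2 h8.symm
            exact hag.2 _ hmem
          · exact hag.1 _ hD
        rw [this]
      | neg j =>
        rw [val_neg D hl, val_neg D hl]
        have hsub : sp D C S {j} ⊆ sp D C S {i} := by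
          refine supp_subset (P := P D C S {j}) (B := sp D C S {i}) ?_ ?_
          · intro a ha b hb c hc hab hac hbc
            obtain ⟨σ, h1, h2⟩ := full_sp D (C := C) (S := S) {i} a ha b hb c hc hab hac hbc
            refine ⟨σ, h1, ?_⟩
            rw [map_singleton] at h2 ⊢
            have h3 : σ i = i := by simpa using h2
            have h4 := h1.label i
            rw [h3, hl] at h4
            simp only [Gate.rename, Gate.neg.injEq] at h4
            rw [Equiv.coe_toEmbedding, ← h4]
          · have h1 := hS.node i
            have h2 := hS.node j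
            rw [Fintype.card_coe]
            unfold sp at h1 h2 ⊢
            omega
        rw [ih j (by have := C.neg_lt hl; omega) h h' (hag.mono hsub)]
      | or I =>
        rw [val_or D hl, val_or D hl]
        constructor
        · rintro ⟨j, hj, g, h1, h2⟩
          exact ⟨j, hj, g, hag.symm.trans h1, h2⟩
        · rintro ⟨j, hj, g, h1, h2⟩
          exact ⟨j, hj, g, hag.trans h1, h2⟩
  exact key (C.rank i + 1) i (Nat.lt_succ_self _)

omit [DecidableEq A] [L.Structure M] in
/-- A labelling can be changed outside `E` so that it takes the values in `T`. -/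
lemma exists_cover [Fintype A] (h : A ↪ M) (E : Finset A) (T : Finset M) :
    E.card + T.card ≤ Fintype.card A →
    ∃ h2 : A ↪ M, (∀ x ∈ E, h2 x = h x) ∧ ∀ u ∈ T, ∃ x, h2 x = u := by
  classical
  induction T using Finset.induction_on with
  | empty => exact fun _ => ⟨h, fun _ _ => rfl, fun u hu => absurd hu (notMem_empty u)⟩
  | insert u T hu ih =>
    intro hc
    rw [card_insert_of_notMem hu] at hc
    obtain ⟨h1, h2, h3⟩ := ih (by omega)
    by_cases hr : ∃ x, h1 x = u
    · refine ⟨h1, h2, fun w hw => ?_⟩
      rcases mem_insert.1 hw with rfl | hw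
      · exact hr
      · exact h3 w hw
    · have h4 : (E ∪ univ.filter fun x => h1 x ∈ T).card < Fintype.card A := by
        have h5 : (univ.filter fun x => h1 x ∈ T).card ≤ T.card := by
          rw [← card_map h1]
          refine card_le_card fun w hw => ?_
          rw [Finset.mem_map] at hw
          obtain ⟨x, hx, rfl⟩ := hw
          exact (mem_filter.1 hx).2
        have := card_union_le E (univ.filter fun x => h1 x ∈ T)
        omega
      obtain ⟨x, hx⟩ : ∃ x, x ∉ E ∪ univ.filter fun x => h1 x ∈ T := by
        by_contra hcon
        push Not at hcon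
        rw [Finset.eq_univ_iff_forall.2 hcon, card_univ] at h4
        exact lt_irrefl _ h4
      simp only [mem_union, mem_filter, mem_univ, true_and, not_or] at hx
      have hinj : Function.Injective (Function.update (fun a => h1 a) x u) := by
        intro a b hab
        by_cases ha : a = x <;> by_cases hb : b = x
        · rw [ha, hb]
        · subst ha
          rw [Function.update_self, Function.update_of_ne hb] at hab
          exact absurd ⟨b, hab.symm⟩ hr
        · subst hb
          rw [Function.update_self, Function.update_of_ne ha] at hab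
          exact absurd ⟨a, hab⟩ hr
        · rw [Function.update_of_ne ha, Function.update_of_ne hb] at hab
          exact h1.injective hab
      refine ⟨⟨Function.update (fun a => h1 a) x u, hinj⟩, ?_, ?_⟩
      · intro y hy
        have hne : y ≠ x := fun h => hx.1 (h ▸ hy)
        change Function.update (fun a => h1 a) x u y = h y
        rw [Function.update_of_ne hne]
        exact h2 y hy
      · intro w hw
        rcases mem_insert.1 hw with rfl | hw
        · refine ⟨x, ?_⟩
          change Function.update (fun a => h1 a) x w x = w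
          exact Function.update_self _ _ _
        · obtain ⟨y, rfl⟩ := h3 w hw
          refine ⟨y, ?_⟩
          have hne : y ≠ x := fun h => hx.2 (h ▸ hw)
          change Function.update (fun a => h1 a) x u y = h1 y
          rw [Function.update_of_ne hne]

/-- An injection on a small set extends to an even permutation. -/
lemma exists_even {β : Type*} [Fintype β] [DecidableEq β] (X : Finset β) (e : β → β)
    (he : Set.InjOn e X) (hc : X.card + 2 ≤ Fintype.card β) :
    ∃ π : Perm β, (∀ x ∈ X, π x = e x) ∧ Perm.sign π = 1 := by
  obtain ⟨g, hg⟩ := Finset.exists_equiv_extend_of_card_eq (α := β) (t := (univ : Finset β))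
    (by rw [card_univ]) (s := X) (f := e) (subset_univ _) he
  set π : Perm β := g.trans (Equiv.subtypeUnivEquiv fun x => mem_univ x) with hπ
  have h1 : ∀ x ∈ X, π x = e x := fun x hx => hg x hx
  rcases Int.units_eq_one_or (Perm.sign π) with hs | hs
  · exact ⟨π, h1, hs⟩
  · have h2 : 2 ≤ (Xᶜ).card := by rw [card_compl]; omega
    obtain ⟨u, hu, v, hv, huv⟩ := Finset.one_lt_card.1 h2
    rw [mem_compl] at hu hv
    refine ⟨π * swap u v, fun x hx => ?_, ?_⟩
    · rw [Perm.mul_apply, swap_apply_of_ne_of_ne (fun h : x = u => hu (h ▸ hx))
        (fun h : x = v => hv (h ▸ hx))]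
      exact h1 x hx
    · rw [Perm.sign_mul, hs, Perm.sign_swap huv]
      rfl

/-- **Persistence.** -/
lemma persist [Fintype A] {k : ℕ} (hS : Small D C S k) {Γ I : Finset N}
    (hΓ : (sp D C S Γ).card ≤ k)
    (hI : ∀ (π : Perm D) (σ : Perm N), IsAut C S (emb D π) σ → Γ.map σ.toEmbedding = Γ →
      I.map σ.toEmbedding = I) {B : Finset D} (hB : sp D C S Γ ⊆ B)
    (hk : B.card + 2 * k + 3 ≤ D.card) {h : A ↪ M}
    (hex : ∃ j ∈ I, ∃ h' : A ↪ M, Agree D h h' (sp D C S Γ) ∧ val D C S j h') :
    ∃ j ∈ I, ∃ h' : A ↪ M, Agree D h h' B ∧ val D C S j h' := by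
  classical
  obtain ⟨j, hj, h', hag, hv⟩ := hex
  have hcD : Fintype.card D = D.card := Fintype.card_coe D
  obtain ⟨h2, h3, h4⟩ := exists_cover h (Dᶜ ∪ B.map (Function.Embedding.subtype _))
    ((sp D C S {j}).map ((Function.Embedding.subtype _).trans h')) (by
      have h5 := card_union_le Dᶜ (B.map (Function.Embedding.subtype (· ∈ D)))
      rw [card_map, card_compl] at h5
      rw [card_map]
      have h6 := hS.node j
      have h7 := card_le_univ D
      omega)
  have hex2 : ∀ a ∈ sp D C S {j} ∪ sp D C S Γ, ∃ x : D, h2 x = h' a := by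
    intro a ha
    rcases mem_union.1 ha with ha | ha
    · obtain ⟨x, hx⟩ := h4 (h' a) (mem_map_of_mem ((Function.Embedding.subtype _).trans h') ha)
      by_cases hxD : x ∈ D
      · exact ⟨⟨x, hxD⟩, hx⟩
      · exfalso
        have h5 := h3 x (mem_union_left _ (mem_compl.2 hxD))
        rw [hag.1 x hxD, hx] at h5
        exact hxD (h'.injective h5 ▸ a.2)
    · refine ⟨a, ?_⟩
      rw [h3 a (mem_union_right _ (mem_map_of_mem _ (hB ha)))]
      exact hag.2 a ha
  choose! e he using hex2
  have hinj : Set.InjOn e ((sp D C S {j} ∪ sp D C S Γ : Finset D) : Set D) := by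
    intro a ha b hb hab
    have h5 := he a ha
    rw [hab, he b hb] at h5
    exact (Subtype.ext (h'.injective h5)).symm
  obtain ⟨π, h5, h6⟩ := exists_even (sp D C S {j} ∪ sp D C S Γ) e hinj (by
    have h5 := card_union_le (sp D C S {j}) (sp D C S Γ)
    have h6 := hS.node j
    omega)
  have hfix : ∀ a ∈ sp D C S Γ, π a = a := by
    intro a ha
    rw [h5 a (mem_union_right _ ha)]
    have h7 := he a (mem_union_right _ ha)
    rw [← hag.2 a ha, ← h3 a (mem_union_right _ (mem_map_of_mem _ (hB ha)))] at h7
    exact Subtype.ext (h2.injective h7)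
  have hP : π ∈ P D C S Γ := by
    refine (full_sp D Γ).mem (fun b hb => ?_) h6
    rw [mem_compl, not_not] at hb
    exact hfix b hb
  obtain ⟨σ, hσ, hσΓ⟩ := hP
  refine ⟨σ j, ?_, h2, ⟨fun a ha => ?_, fun b hb => ?_⟩, ?_⟩
  · rw [← hI π σ hσ hσΓ]
    exact mem_map_of_mem _ hj
  · exact (h3 a (mem_union_left _ (mem_compl.2 ha))).symm
  · exact (h3 b (mem_union_right _ (mem_map_of_mem _ hb))).symm
  · rw [val_sym hS (by omega) hσ]
    refine (val_local hS (by omega) j _ _ ⟨fun a ha => ?_, fun b hb => ?_⟩).2 hv
    · simp only [Function.Embedding.trans_apply, Equiv.coe_toEmbedding]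
      rw [emb_not_mem D ha, h3 a (mem_union_left _ (mem_compl.2 ha))]
      exact hag.1 a ha
    · simp only [Function.Embedding.trans_apply, Equiv.coe_toEmbedding]
      rw [emb_mem, h5 b (mem_union_left _ hb)]
      exact he b (mem_union_left _ hb)

lemma persist_node [Fintype A] {k : ℕ} (hS : Small D C S k) {i : N} {I : Finset N}
    (hl : C.label i = .or I) {B : Finset D} (hk : B.card + 3 * k + 3 ≤ D.card) {h : A ↪ M}
    (hv : val D C S i h) : ∃ j ∈ I, ∃ h' : A ↪ M, Agree D h h' B ∧ val D C S j h' := by
  classical
  rw [val_or D hl] at hv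
  obtain ⟨j, hj, h', h1, h2⟩ := persist (B := B ∪ sp D C S {i}) hS (Γ := {i}) (hS.node i)
    (I := I) (fun π σ hσ hi => by
      rw [map_singleton] at hi
      have h3 : σ i = i := by simpa using hi
      have h4 := hσ.label i
      rw [h3, hl] at h4
      simp only [Gate.rename, Gate.or.injEq] at h4
      exact h4.symm) subset_union_right (by
      have h5 := card_union_le B (sp D C S {i})
      have h6 := hS.node i
      omega) hv
  exact ⟨j, hj, h', h1.mono subset_union_left, h2⟩

/-- Truth of a line. -/
def TrueLine (M : Type) [L.Structure M] (D : Finset A) (C : Dag (Atom L A) N)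
    (S : Set (Finset N)) (Γ : Finset N) : Prop :=
  ∀ h : A ↪ M, ∃ i ∈ Γ, ∃ h' : A ↪ M, Agree D h h' (sp D C S Γ) ∧ val D C S i h'

lemma TrueLine.at [Fintype A] {k : ℕ} (hS : Small D C S k) {Γ : Finset N}
    (hΓ : (sp D C S Γ).card ≤ k) {B : Finset D} (hk : B.card + 3 * k + 3 ≤ D.card)
    (hT : TrueLine M D C S Γ) (h : A ↪ M) :
    ∃ i ∈ Γ, ∃ h' : A ↪ M, Agree D h h' B ∧ val D C S i h' := by
  classical
  obtain ⟨j, hj, h', h1, h2⟩ := persist (B := B ∪ sp D C S Γ) hS (Γ := Γ) hΓ
    (I := Γ) (fun π σ hσ hi => hi) subset_union_right (by
      have h5 := card_union_le B (sp D C S Γ)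
      omega) (hT h)
  exact ⟨j, hj, h', h1.mono subset_union_left, h2⟩

end Pool.Agent.L5helper87.SF
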